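import Mathlib
import Pool.Agent.H95.SumRule.Defs

/-!
Two-point functions of the self-dual FK model with free boundary conditions in triangles that
exhaust the wedge `{(i, j) : 0 ≤ j ≤ i}` of angle `π / 4`.
-/

namespace Pool.Agent.H95.Octant

open Pool.Agent.H95.SumRule

/-- Probability that the vertices `x` and `y` are connected in the triangle
`{(i, j) : 0 ≤ j ≤ i ≤ N}`, for the FK model at its self-dual point with free boundary
conditions. -/
noncomputable def triTwoPoint (q : ℝ) (N : ℕ) (x y : ℤ × ℤ) : ℝ :=
  fkProb (selfDual q) q (domain N Int.toNat) ∅ fun ω => (openGraph ω).Reachable x y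

end Pool.Agent.H95.Octant
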