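import Mathlib
import Pool.Agent.H95.Octant.Defs
import Pool.Agent.H95.Susc.Quarter

/-!
The two exact sum rules in truncated triangles.
-/

namespace Pool.Agent.H95.Octant

open Finset Pool.Agent.H95.SumRule Pool.Agent.H95.Perc Pool.Agent.H95.Susc Filter Topology

set_option linter.unusedSectionVars false

variable {q : ℝ}

/-- the truncated triangle `0 ≤ j ≤ min (i, M)`, `i ≤ N` -/
noncomputable def Vs (M N : ℕ) : Finset (ℤ × ℤ) := domain N (fun i => min i.toNat M)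

lemma mem_Vs {M N : ℕ} {x y : ℤ} : (x, y) ∈ Vs M N ↔ 0 ≤ x ∧ x ≤ N ∧ 0 ≤ y ∧ y ≤ x ∧ y ≤ M := by
  unfold Vs
  rw [mem_domain]
  simp only [InV]
  omega

lemma Vs_self (N : ℕ) : Vs N N = domain N Int.toNat := by
  ext ⟨x, y⟩
  rw [mem_Vs, mem_domain]
  simp only [InV]
  omega

lemma Vs_mono {M N M' N' : ℕ} (h1 : M ≤ M') (h2 : N ≤ N') : Vs M N ⊆ Vs M' N' := by
  rintro ⟨x, y⟩
  rw [mem_Vs, mem_Vs]
  omega

/-- the mirror image -/
lemma Vs_refl (M N : ℕ) :
    domain N (fun i => min ((N : ℤ) - i).toNat M) = (Vs M N).image (reflX N) := by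
  ext ⟨x, y⟩
  rw [mem_image_equiv, mem_domain]
  have : (reflX (N : ℤ)).symm (x, y) = ((N : ℤ) - x, y) := rfl
  rw [this, mem_Vs]
  simp only [InV]
  omega

/-- two-point function in the truncated triangle -/
noncomputable def g (q : ℝ) (M N : ℕ) (x y : ℤ × ℤ) : ℝ := G q (Vs M N) x y

/-- sum over the diagonal -/
noncomputable def Ds (q : ℝ) (a M N : ℕ) : ℝ := ∑ i ∈ range (M + 1), g q M N ((a : ℤ), 0) ((i : ℤ), (i : ℤ))
/-- sum over the right side -/
noncomputable def Es (q : ℝ) (a M N : ℕ) : ℝ := ∑ j ∈ range (M + 1), g q M N ((a : ℤ), 0) ((N : ℤ), (j : ℤ))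
/-- sum over the bottom side to the right of the source -/
noncomputable def Bp (q : ℝ) (a M N : ℕ) : ℝ :=
  ∑ k ∈ range (N - a), g q M N ((a : ℤ), 0) (((a + 1 + k : ℕ) : ℤ), 0)
/-- sum over the bottom side to the left of the source -/
noncomputable def Bm (q : ℝ) (a M N : ℕ) : ℝ :=
  ∑ i ∈ range a, g q M N ((a : ℤ), 0) ((i : ℤ), 0)
/-- sum over the top -/
noncomputable def Ts (q : ℝ) (a M N : ℕ) : ℝ :=
  ∑ i ∈ Icc (0 : ℤ) N, g q M N ((a : ℤ), 0) (i, ((min i.toNat M : ℕ) : ℤ))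

lemma touch1 (a M N : ℕ) (x : ℤ × ℤ) :
    touchProb q N (fun i => min i.toNat M) a a x = g q M N ((a : ℤ), 0) x := by
  unfold touchProb g G P
  have h : bottomArc (a : ℤ) a = ∅ := by unfold bottomArc; simp
  rw [h]
  rfl

lemma touch2 (hq : 0 < q) (a M N : ℕ) (x y : ℤ) :
    touchProb q N (fun i => min ((N : ℤ) - i).toNat M) ((N : ℤ) - a) ((N : ℤ) - a) (x, y)
      = g q M N ((a : ℤ), 0) ((N : ℤ) - x, y) := by
  unfold touchProb
  have h : bottomArc ((N : ℤ) - a) ((N : ℤ) - a) = ∅ := by unfold bottomArc; simp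
  rw [h, Vs_refl]
  have h1 := G_act hq (isAut_reflX (N : ℤ)) (Vs M N) ((a : ℤ), 0) ((N : ℤ) - x, y)
  have e1 : reflX (N : ℤ) ((a : ℤ), 0) = ((N : ℤ) - a, 0) := rfl
  have e2 : reflX (N : ℤ) ((N : ℤ) - x, y) = (x, y) := by
    show ((N : ℤ) - ((N : ℤ) - x), y) = (x, y)
    rw [sub_sub_cancel]
  rw [e1, e2] at h1
  unfold g
  rw [← h1]
  rfl

lemma sum_Icc_eq (f : ℤ → ℝ) (M : ℕ) :
    ∑ j ∈ Icc (0 : ℤ) M, f j = ∑ k ∈ range (M + 1), f (k : ℤ) := by
  symm
  refine sum_bij (fun (k : ℕ) _ => (k : ℤ)) ?_ ?_ ?_ ?_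
  · intro k hk; rw [mem_range] at hk; rw [mem_Icc]; omega
  · intro a _ b _ h; omega
  · intro i hi
    rw [mem_Icc] at hi
    exact ⟨i.toNat, by rw [mem_range]; omega, by omega⟩
  · intro k _; rfl

/-- first sum rule -/
theorem rule1 (hq : 0 < q) {a M N : ℕ} (ha : a ≤ N) (hM : M ≤ N) :
    Ts q a M N + √q * Es q a M N + (q - 1) * Bp q a M N = 1 + √q + Bm q a M N := by
  have h := sum_rule_main q hq N (fun i => min i.toNat M) a a (by omega) le_rfl
    (by exact_mod_cast ha)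
  simp only [touch1, Ico_self, sum_empty, add_zero] at h
  have hs : (domain N (fun i => min i.toNat M)).filter
      (fun v => v + (1, 0) ∉ domain N (fun i => min i.toNat M))
      = (Icc (0 : ℤ) M).image (fun j => ((N : ℤ), j)) := by
    ext ⟨x, y⟩
    have e : ∀ v, v ∈ domain N (fun i => min i.toNat M) ↔ v ∈ Vs M N := fun v => Iff.rfl
    rw [mem_filter, e, e, mem_image, Prod.mk_add_mk, mem_Vs, mem_Vs]
    simp only [mem_Icc, Prod.mk.injEq]
    constructor
    · rintro ⟨h1, h2⟩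
      exact ⟨y, by omega, by omega, rfl⟩
    · rintro ⟨j, h1, h2, h3⟩
      omega
  rw [hs, sum_image (by intro x _ y _ h; exact congrArg Prod.snd h), sum_Ioc_eq, sum_Ico_eq,
    sum_Icc_eq (fun j => g q M N ((a : ℤ), 0) ((N : ℤ), j))] at h
  unfold Ts Es Bp Bm
  exact h

/-- second sum rule (the mirror image) -/
theorem rule2 (hq : 0 < q) {a M N : ℕ} (ha : a ≤ N) (hM : M ≤ N) :
    Ts q a M N + √q * Ds q a M N + (q - 1) * Bm q a M N = 1 + √q + Bp q a M N := by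
  have h := sum_rule_main q hq N (fun i => min ((N : ℤ) - i).toNat M) ((N : ℤ) - a) ((N : ℤ) - a)
    (by omega) le_rfl (by omega)
  simp only [Ico_self, sum_empty, add_zero] at h
  have hs : (domain N (fun i => min ((N : ℤ) - i).toNat M)).filter
      (fun v => v + (1, 0) ∉ domain N (fun i => min ((N : ℤ) - i).toNat M))
      = (range (M + 1)).image (fun j : ℕ => (((N : ℤ) - j, (j : ℤ)) : ℤ × ℤ)) := by
    ext ⟨x, y⟩
    rw [mem_filter, mem_domain, mem_domain, mem_image]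
    simp only [InV, Prod.mk_add_mk, mem_range, Prod.mk.injEq]
    constructor
    · rintro ⟨h1, h2⟩
      exact ⟨y.toNat, by omega, by omega, by omega⟩
    · rintro ⟨j, h1, h2, h3⟩
      omega
  have hi : ∀ x ∈ range (M + 1), ∀ y ∈ range (M + 1),
      (((N : ℤ) - (x : ℤ), (x : ℤ)) : ℤ × ℤ) = ((N : ℤ) - (y : ℤ), (y : ℤ)) → x = y := by
    intro x _ y _ h
    have h1 : ((x : ℕ) : ℤ) = ((y : ℕ) : ℤ) := congrArg Prod.snd h
    exact Int.ofNat_inj.1 h1
  rw [hs, sum_image hi] at h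
  simp only [touch2 hq, sub_sub_cancel] at h
  -- the top
  have e1 : ∑ i ∈ Icc (0 : ℤ) N, g q M N ((a : ℤ), 0) ((N : ℤ) - i,
      ((min ((N : ℤ) - i).toNat M : ℕ) : ℤ)) = Ts q a M N := by
    unfold Ts
    refine sum_bij (fun i _ => (N : ℤ) - i) ?_ ?_ ?_ ?_
    · intro i hi; rw [mem_Icc] at hi ⊢; omega
    · intro i _ j _ h; omega
    · intro i hi
      rw [mem_Icc] at hi
      exact ⟨(N : ℤ) - i, by rw [mem_Icc]; omega, by omega⟩
    · intro i _; rfl
  have e2 : ∑ i ∈ Ioc ((N : ℤ) - a) N, g q M N ((a : ℤ), 0) ((N : ℤ) - i, 0) = Bm q a M N := by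
    unfold Bm
    rw [← sum_Ico_eq (fun i => g q M N ((a : ℤ), 0) (i, 0))]
    refine sum_bij (fun i _ => (N : ℤ) - i) ?_ ?_ ?_ ?_
    · intro i hi; rw [mem_Ioc] at hi; rw [mem_Ico]; omega
    · intro i _ j _ h; omega
    · intro i hi
      rw [mem_Ico] at hi
      exact ⟨(N : ℤ) - i, by rw [mem_Ioc]; omega, by omega⟩
    · intro i _; rfl
  have e3 : ∑ i ∈ Ico (0 : ℤ) ((N : ℤ) - a), g q M N ((a : ℤ), 0) ((N : ℤ) - i, 0) = Bp q a M N := by
    unfold Bp
    rw [← sum_Ioc_eq (fun i => g q M N ((a : ℤ), 0) (i, 0))]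
    refine sum_bij (fun i _ => (N : ℤ) - i) ?_ ?_ ?_ ?_
    · intro i hi; rw [mem_Ico] at hi; rw [mem_Ioc]; omega
    · intro i _ j _ h; omega
    · intro i hi
      rw [mem_Ioc] at hi
      exact ⟨(N : ℤ) - i, by rw [mem_Ico]; omega, by omega⟩
    · intro i _; rfl
  rw [e1, e2, e3] at h
  exact h

/-- in the triangle the top is the diagonal -/
lemma Ts_tri (a N : ℕ) : Ts q a N N = Ds q a N N := by
  unfold Ts Ds
  rw [sum_Icc_eq (fun i => g q N N ((a : ℤ), 0) (i, ((min i.toNat N : ℕ) : ℤ)))]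
  apply sum_congr rfl
  intro k hk
  rw [mem_range] at hk
  have : ((min ((k : ℤ).toNat) N : ℕ) : ℤ) = k := by omega
  rw [this]

/-- the identities in the triangle -/
theorem tri1 (hq : 0 < q) {a N : ℕ} (ha : a ≤ N) :
    (1 + √q) * Ds q a N N + (q - 1) * Bm q a N N = 1 + √q + Bp q a N N := by
  have h := rule2 hq ha (le_refl N)
  rw [Ts_tri] at h
  linarith

theorem tri2 (hq : 0 < q) {a N : ℕ} (ha : a ≤ N) :
    (1 + √q) * Es q a N N + (q + √q - 1) * Bp q a N N = (1 + √q) * (1 + Bm q a N N) := by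
  have h1 := rule1 hq ha (le_refl N)
  have h2 := tri1 hq ha
  rw [Ts_tri] at h1
  have hs : 0 < √q := Real.sqrt_pos.2 hq
  have hsq : √q * √q = q := Real.mul_self_sqrt hq.le
  have h3 : √q * ((1 + √q) * Es q a N N + (q + √q - 1) * Bp q a N N) =
      √q * ((1 + √q) * (1 + Bm q a N N)) := by
    linear_combination (1 + √q) * h1 - h2 +
      (Bp q a N N - Bm q a N N) * hsq
  exact mul_left_cancel₀ hs.ne' h3

/-- the identity in the truncated triangle -/
theorem strip (hq : 0 < q) {a M N : ℕ} (ha : a ≤ N) (hM : M ≤ N) :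
    Ds q a M N = Es q a M N + √q * (Bp q a M N - Bm q a M N) := by
  have h1 := rule1 hq ha hM
  have h2 := rule2 hq ha hM
  have hs : 0 < √q := Real.sqrt_pos.2 hq
  have hsq : √q * √q = q := Real.mul_self_sqrt hq.le
  have h3 : √q * Ds q a M N = √q * (Es q a M N + √q * (Bp q a M N - Bm q a M N)) := by
    linear_combination h2 - h1 - (Bp q a M N - Bm q a M N) * hsq
  exact mul_left_cancel₀ hs.ne' h3

end Pool.Agent.H95.Octant
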