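import Mathlib
import Pool.Agent.H95.Octant.Rules

/-!
Exact sums of boundary two-point functions in the octant.
-/

namespace Pool.Agent.H95.Octant

open Finset Pool.Agent.H95.SumRule Pool.Agent.H95.Perc Pool.Agent.H95.Susc Filter Topology

set_option linter.unusedSectionVars false

variable {q : ℝ}

lemma g_nonneg (hq : 0 < q) (M N : ℕ) (x y : ℤ × ℤ) : 0 ≤ g q M N x y := G_nonneg hq _ _ _
lemma g_le_one (hq : 0 < q) (M N : ℕ) (x y : ℤ × ℤ) : g q M N x y ≤ 1 := G_le_one hq _ _ _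
lemma g_mono (hq : 1 ≤ q) {M N M' N' : ℕ} (h1 : M ≤ M') (h2 : N ≤ N') (x y : ℤ × ℤ) :
    g q M N x y ≤ g q M' N' x y := G_mono hq (Vs_mono h1 h2) x y

/-- infinite-volume two-point function of the octant -/
noncomputable def GO (q : ℝ) (x y : ℤ × ℤ) : ℝ := ⨆ N : ℕ, g q N N x y

lemma bdd_g (hq : 0 < q) (x y : ℤ × ℤ) : BddAbove (Set.range fun N : ℕ => g q N N x y) :=
  ⟨1, by rintro _ ⟨N, rfl⟩; exact g_le_one hq _ _ _ _⟩

lemma tendsto_g (hq : 1 ≤ q) (x y : ℤ × ℤ) :
    Tendsto (fun N : ℕ => g q N N x y) atTop (𝓝 (GO q x y)) :=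
  tendsto_atTop_ciSup (fun _ _ h => g_mono hq h h x y) (bdd_g (by linarith) x y)

lemma g_le_GO (hq : 1 ≤ q) (M N : ℕ) (x y : ℤ × ℤ) : g q M N x y ≤ GO q x y :=
  (g_mono hq (le_max_left M N) (le_max_right M N) x y).trans
    (le_ciSup (bdd_g (by linarith) x y) (max M N))

lemma GO_nonneg (hq : 1 ≤ q) (x y : ℤ × ℤ) : 0 ≤ GO q x y :=
  (g_nonneg (by linarith) 0 0 x y).trans (g_le_GO hq 0 0 x y)

/-- monotone convergence -/
lemma mct {f : ℕ → ℕ → ℝ} {F : ℕ → ℝ} {n : ℕ → ℕ} (h0 : ∀ N k, 0 ≤ f N k)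
    (hle : ∀ N k, f N k ≤ F k) (hlim : ∀ k, Tendsto (fun N => f N k) atTop (𝓝 (F k)))
    (hn : Tendsto n atTop atTop) {C : ℝ} (hC : ∀ᶠ N in atTop, ∑ k ∈ range (n N), f N k ≤ C) :
    Summable F ∧ Tendsto (fun N => ∑ k ∈ range (n N), f N k) atTop (𝓝 (∑' k, F k)) := by
  have hF0 : ∀ k, 0 ≤ F k := fun k => (h0 0 k).trans (hle 0 k)
  have hs : Summable F := by
    refine summable_of_sum_range_le (c := C) hF0 fun K => ?_
    have ht : Tendsto (fun N => ∑ k ∈ range K, f N k) atTop (𝓝 (∑ k ∈ range K, F k)) :=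
      tendsto_finsetSum _ fun k _ => hlim k
    refine le_of_tendsto ht ?_
    filter_upwards [hC, hn.eventually_ge_atTop K] with N h1 h2
    refine le_trans ?_ h1
    exact sum_le_sum_of_subset_of_nonneg (range_mono h2) fun k _ _ => h0 N k
  refine ⟨hs, ?_⟩
  have hd := tendsto_tsum_of_dominated_convergence (𝓕 := atTop)
    (f := fun N k => if k < n N then f N k else 0) (g := F) (bound := F) hs ?_ ?_
  · refine hd.congr fun N => ?_
    rw [tsum_eq_sum (s := range (n N))]
    · apply sum_congr rfl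
      intro k hk
      rw [if_pos (mem_range.1 hk)]
    · intro k hk
      rw [mem_range] at hk
      rw [if_neg hk]
  · intro k
    refine (hlim k).congr' ?_
    filter_upwards [hn.eventually_gt_atTop k] with N hN
    rw [if_pos hN]
  · refine Eventually.of_forall fun N k => ?_
    split_ifs
    · rw [Real.norm_of_nonneg (h0 N k)]
      exact hle N k
    · rw [norm_zero]
      exact hF0 k

lemma Es_nonneg (hq : 0 < q) (a M N : ℕ) : 0 ≤ Es q a M N := sum_nonneg fun _ _ => g_nonneg hq _ _ _ _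

/-- the sum over the bottom to the left of the source -/
noncomputable def C (q : ℝ) (a : ℕ) : ℝ := ∑ i ∈ range a, GO q ((a : ℤ), 0) ((i : ℤ), 0)

lemma Bm_le (hq : 1 ≤ q) (a M N : ℕ) : Bm q a M N ≤ C q a :=
  sum_le_sum fun _ _ => g_le_GO hq _ _ _ _

lemma Bm_mono (hq : 1 ≤ q) (a : ℕ) {M N M' N' : ℕ} (h1 : M ≤ M') (h2 : N ≤ N') :
    Bm q a M N ≤ Bm q a M' N' := sum_le_sum fun _ _ => g_mono hq h1 h2 _ _

lemma tendsto_Bm (hq : 1 ≤ q) (a : ℕ) : Tendsto (fun N => Bm q a N N) atTop (𝓝 (C q a)) :=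
  tendsto_finsetSum _ fun _ _ => tendsto_g hq _ _

lemma coef_pos (hq : 1 ≤ q) : 0 < q + √q - 1 := by
  have : 0 < √q := Real.sqrt_pos.2 (by linarith)
  linarith

/-- the terms of the series on the right -/
noncomputable def tB (q : ℝ) (a k : ℕ) : ℝ := GO q ((a : ℤ), 0) (((a + 1 + k : ℕ) : ℤ), 0)

lemma Bp_bound (hq : 1 ≤ q) {a N : ℕ} (ha : a ≤ N) :
    Bp q a N N ≤ (1 + √q) * (1 + C q a) / (q + √q - 1) := by
  rw [le_div_iff₀ (coef_pos hq)]
  have h := tri2 (by linarith : (0 : ℝ) < q) ha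
  have h1 := Es_nonneg (by linarith : (0 : ℝ) < q) a N N
  have h2 := Bm_le hq a N N
  have h3 := Real.sqrt_nonneg q
  nlinarith

theorem lim_B (hq : 1 ≤ q) (a : ℕ) : Summable (tB q a) ∧
    Tendsto (fun N => Bp q a N N) atTop (𝓝 (∑' k, tB q a k)) := by
  refine mct (f := fun N k => g q N N ((a : ℤ), 0) (((a + 1 + k : ℕ) : ℤ), 0)) (F := tB q a)
    (n := fun N => N - a) (C := (1 + √q) * (1 + C q a) / (q + √q - 1))
    (fun N k => g_nonneg (by linarith) _ _ _ _)
    (fun N k => g_le_GO hq _ _ _ _) (fun k => tendsto_g hq _ _) ?_ ?_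
  · exact tendsto_sub_atTop_nat a
  · filter_upwards [eventually_ge_atTop a] with N hN
    exact Bp_bound hq hN

lemma Bp_le_tsum (hq : 1 ≤ q) (a M N : ℕ) : Bp q a M N ≤ ∑' k, tB q a k := by
  refine le_trans (sum_le_sum fun k _ => g_le_GO hq _ _ _ _) ?_
  exact (lim_B hq a).1.sum_le_tsum (range (N - a)) fun k _ => GO_nonneg hq _ _

/-- vertical chains of edges -/
lemma G_chainV (hq : 1 ≤ q) {V : Finset (ℤ × ℤ)} (a j : ℤ) (k : ℕ)
    (h : ∀ i : ℤ, a ≤ i → i ≤ a + k → (j, i) ∈ V) : ce q ^ k ≤ G q V (j, a) (j, a + k) := by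
  induction k with
  | zero => simp [G_self (show (0 : ℝ) < q by linarith)]
  | succ k ih =>
    have h1 := ih (fun i h1 h2 => h i h1 (by push_cast; omega))
    have h2 : ce q ≤ G q V (j, a + k) (j, a + (k + 1 : ℕ)) := by
      apply G_step hq (h _ (by omega) (by push_cast; omega)) (h _ (by push_cast; omega) (by push_cast; omega))
      simp [Z2, IsUnit2]
    rw [pow_succ]
    exact (mul_le_mul h1 h2 (ce_pos q).le (G_nonneg (by linarith) _ _ _)).trans (G_trans hq V _ _ _)

/-- the right side is negligible in a long truncated triangle -/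
lemma Es_small (hq : 1 ≤ q) (a M : ℕ) : Tendsto (fun N => Es q a M N) atTop (𝓝 0) := by
  have hq0 : 0 < q := by linarith
  have hp : 0 < ce q ^ M := pow_pos (ce_pos q) M
  have hb : ∀ᶠ N in atTop, Es q a M N ≤ (M + 1) * ((ce q ^ M)⁻¹ * tB q a (N - (a + 1))) := by
    filter_upwards [eventually_ge_atTop (M + (a + 1))] with N hN
    unfold Es
    have h1 : ∀ j ∈ range (M + 1), g q M N ((a : ℤ), 0) ((N : ℤ), (j : ℤ)) ≤
        (ce q ^ M)⁻¹ * tB q a (N - (a + 1)) := by
      intro j hj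
      rw [mem_range] at hj
      have hc := G_chainV hq (V := Vs M N) 0 (N : ℤ) j (by
        intro i h1 h2; rw [mem_Vs]; omega)
      rw [zero_add] at hc
      have h2 := G_trans hq (Vs M N) ((a : ℤ), 0) ((N : ℤ), (j : ℤ)) ((N : ℤ), 0)
      have h3 : G q (Vs M N) ((a : ℤ), 0) ((N : ℤ), 0) ≤ tB q a (N - (a + 1)) := by
        refine (g_le_GO hq M N _ _).trans (le_of_eq ?_)
        unfold tB
        rw [show a + 1 + (N - (a + 1)) = N by omega]
      have h4 : ce q ^ M ≤ ce q ^ j :=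
        pow_le_pow_of_le_one (ce_pos q).le (ce_le_one q) (by omega)
      have h5 : ce q ^ M ≤ G q (Vs M N) ((N : ℤ), (j : ℤ)) ((N : ℤ), 0) := by
        rw [G_symm]; exact h4.trans hc
      rw [le_inv_mul_iff₀ hp]
      have h6 : ce q ^ M * G q (Vs M N) ((a : ℤ), 0) ((N : ℤ), (j : ℤ))
          ≤ G q (Vs M N) ((a : ℤ), 0) ((N : ℤ), (j : ℤ))
            * G q (Vs M N) ((N : ℤ), (j : ℤ)) ((N : ℤ), 0) := by
        rw [mul_comm]
        exact mul_le_mul_of_nonneg_left h5 (G_nonneg hq0 _ _ _)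
      exact (h6.trans h2).trans h3
    refine (sum_le_sum h1).trans ?_
    rw [sum_const, card_range, nsmul_eq_mul]
    push_cast
    exact le_rfl
  have ht : Tendsto (fun N => ((M : ℝ) + 1) * ((ce q ^ M)⁻¹ * tB q a (N - (a + 1)))) atTop (𝓝 0) := by
    have h1 := ((lim_B hq a).1.tendsto_atTop_zero.comp (tendsto_sub_atTop_nat (a + 1)))
    have h2 := (h1.const_mul (ce q ^ M)⁻¹).const_mul ((M : ℝ) + 1)
    simpa using h2
  exact tendsto_of_tendsto_of_tendsto_of_le_of_le' tendsto_const_nhds ht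
    (Eventually.of_forall fun N => Es_nonneg hq0 a M N) hb

/-- the exact sum over the bottom side -/
theorem sum_B (hq : 1 ≤ q) (a : ℕ) :
    (q + √q - 1) * ∑' k, tB q a k = (1 + √q) * (1 + C q a) := by
  have hq0 : 0 < q := by linarith
  have hsq : √q * √q = q := Real.mul_self_sqrt hq0.le
  have hs : 0 ≤ √q := Real.sqrt_nonneg q
  set B := ∑' k, tB q a k with hB
  apply le_antisymm
  · have h1 : B ≤ (1 + √q) * (1 + C q a) / (q + √q - 1) := by
      refine le_of_tendsto (lim_B hq a).2 ?_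
      filter_upwards [eventually_ge_atTop a] with N hN
      exact Bp_bound hq hN
    rw [le_div_iff₀ (coef_pos hq)] at h1
    linarith
  · -- in the truncated triangles
    have h1 : ∀ M, a ≤ M → Ds q a M M ≤ √q * (B - Bm q a M M) := by
      intro M hM
      have h2 : ∀ᶠ N in atTop, Ds q a M M ≤ Es q a M N + √q * (B - Bm q a M M) := by
        filter_upwards [eventually_ge_atTop M] with N hN
        have h3 := strip hq0 (hM.trans hN) hN
        have h4 : Ds q a M M ≤ Ds q a M N := sum_le_sum fun _ _ => g_mono hq le_rfl hN _ _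
        have h5 := Bp_le_tsum hq a M N
        have h6 := Bm_mono hq a (le_refl M) hN
        have h7 : √q * (Bp q a M N - Bm q a M N) ≤ √q * (B - Bm q a M M) :=
          mul_le_mul_of_nonneg_left (by linarith) hs
        linarith
      have h3 : Tendsto (fun N => Es q a M N + √q * (B - Bm q a M M)) atTop
          (𝓝 (0 + √q * (B - Bm q a M M))) := (Es_small hq a M).add_const _
      rw [zero_add] at h3
      exact ge_of_tendsto h3 h2
    have h2 : ∀ᶠ M in atTop, 1 + √q + Bp q a M M - (q - 1) * Bm q a M M ≤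
        (1 + √q) * (√q * (B - Bm q a M M)) := by
      filter_upwards [eventually_ge_atTop a] with M hM
      have h3 := mul_le_mul_of_nonneg_left (h1 M hM) (by linarith : 0 ≤ 1 + √q)
      have h4 := tri1 hq0 hM
      linarith
    have hl : Tendsto (fun M => 1 + √q + Bp q a M M - (q - 1) * Bm q a M M) atTop
        (𝓝 (1 + √q + B - (q - 1) * C q a)) :=
      (tendsto_const_nhds.add (lim_B hq a).2).sub ((tendsto_Bm hq a).const_mul _)
    have hr : Tendsto (fun M => (1 + √q) * (√q * (B - Bm q a M M))) atTop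
        (𝓝 ((1 + √q) * (√q * (B - C q a)))) :=
      ((tendsto_const_nhds.sub (tendsto_Bm hq a)).const_mul _).const_mul _
    have h3 := le_of_tendsto_of_tendsto hl hr h2
    have h4 : (1 + √q) * (√q * (B - C q a)) = (√q + q) * (B - C q a) := by
      linear_combination (B - C q a) * hsq
    rw [h4] at h3
    linarith

/-- the terms of the series on the diagonal -/
noncomputable def tD (q : ℝ) (a i : ℕ) : ℝ := GO q ((a : ℤ), 0) ((i : ℤ), (i : ℤ))

/-- the exact sum over the diagonal -/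
theorem sum_D (hq : 1 ≤ q) (a : ℕ) : Summable (tD q a) ∧
    (q + √q - 1) * ∑' i, tD q a i = √q * (1 + √q + (2 - q) * C q a) := by
  have hq0 : 0 < q := by linarith
  have hsq : √q * √q = q := Real.mul_self_sqrt hq0.le
  have hs : 0 ≤ √q := Real.sqrt_nonneg q
  set B := ∑' k, tB q a k with hB
  have hbd : ∀ᶠ N in atTop, Ds q a N N ≤ 1 + B := by
    filter_upwards [eventually_ge_atTop a] with N hN
    have h4 := tri1 hq0 hN
    have h5 := Bp_le_tsum hq a N N
    have h6 : 0 ≤ Bm q a N N := sum_nonneg fun _ _ => g_nonneg hq0 _ _ _ _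
    have h7 : 0 ≤ (q - 1) * Bm q a N N := mul_nonneg (by linarith) h6
    have h8 : 0 ≤ B := by
      have h9 : 0 ≤ Bp q a N N := sum_nonneg fun _ _ => g_nonneg hq0 _ _ _ _
      linarith
    nlinarith
  obtain ⟨h1, h2⟩ := mct (f := fun N i => g q N N ((a : ℤ), 0) ((i : ℤ), (i : ℤ))) (F := tD q a)
    (n := fun N => N + 1) (C := 1 + B)
    (fun N k => g_nonneg hq0 _ _ _ _) (fun N k => g_le_GO hq _ _ _ _)
    (fun k => tendsto_g hq _ _) (tendsto_add_atTop_nat 1) hbd
  refine ⟨h1, ?_⟩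
  have h3 : Tendsto (fun N => (1 + √q) * Ds q a N N + (q - 1) * Bm q a N N) atTop
      (𝓝 ((1 + √q) * ∑' i, tD q a i + (q - 1) * C q a)) :=
    (h2.const_mul _).add ((tendsto_Bm hq a).const_mul _)
  have h4 : Tendsto (fun N => 1 + √q + Bp q a N N) atTop (𝓝 (1 + √q + B)) :=
    tendsto_const_nhds.add (lim_B hq a).2
  have h5 : (1 + √q) * ∑' i, tD q a i + (q - 1) * C q a = 1 + √q + B := by
    refine tendsto_nhds_unique h3 (h4.congr' ?_)
    filter_upwards [eventually_ge_atTop a] with N hN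
    exact (tri1 hq0 hN).symm
  have h6 := sum_B hq a
  rw [← hB] at h6
  have h7 : (1 + √q) * ((q + √q - 1) * ∑' i, tD q a i) =
      (1 + √q) * (√q * (1 + √q + (2 - q) * C q a)) := by
    set D := ∑' i, tD q a i
    linear_combination (q + √q - 1) * h5 + h6 +
      (-(1 + √q) + (q - 2) * C q a) * hsq
  exact mul_left_cancel₀ (by linarith : 1 + √q ≠ 0) h7

end Pool.Agent.H95.Octant
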