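import Mathlib
import Pool.Agent.H95.Octant.Limit

/-!
The octant: final statement.
-/

namespace Pool.Agent.H95.Octant

open Finset Pool.Agent.H95.SumRule Pool.Agent.H95.Perc Pool.Agent.H95.Susc Filter Topology

variable {q : ℝ}

lemma triTwoPoint_eq (q : ℝ) (N : ℕ) (x y : ℤ × ℤ) : triTwoPoint q N x y = g q N N x y := by
  unfold triTwoPoint g G P
  rw [Vs_self]

lemma sum_Ioc_nat (f : ℤ → ℝ) (a N : ℕ) :
    ∑ j ∈ Ioc a N, f (j : ℤ) = ∑ k ∈ range (N - a), f (((a + 1 + k : ℕ) : ℤ)) := by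
  rw [show Ioc a N = Ico (a + 1) (N + 1) by ext x; simp only [mem_Ioc, mem_Ico]; omega,
    sum_Ico_eq_sum_range]
  rw [show N + 1 - (a + 1) = N - a by omega]

/-- the coefficient changes sign at `(3 - √5) / 2` -/
lemma coef_sign (q : ℝ) : ((3 - √5) / 2 < q → 0 < q + √q - 1) ∧
    (q ≤ (3 - √5) / 2 → q + √q - 1 ≤ 0) := by
  have h5 : √5 * √5 = 5 := Real.mul_self_sqrt (by norm_num)
  have h5' : (2 : ℝ) ≤ √5 := by
    rw [show (2 : ℝ) = √4 by
      rw [show (4 : ℝ) = 2 * 2 by norm_num, Real.sqrt_mul_self (by norm_num)]]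
    exact Real.sqrt_le_sqrt (by norm_num)
  have hr : √((3 - √5) / 2) = (√5 - 1) / 2 := by
    rw [show (3 - √5) / 2 = ((√5 - 1) / 2) * ((√5 - 1) / 2) by linear_combination -h5 / 4]
    exact Real.sqrt_mul_self (by linarith)
  have h0 : 0 ≤ (3 - √5) / 2 := by
    rw [show (3 - √5) / 2 = ((√5 - 1) / 2) * ((√5 - 1) / 2) by linear_combination -h5 / 4]
    exact mul_self_nonneg _
  constructor
  · intro h
    have h1 := Real.sqrt_lt_sqrt h0 h
    rw [hr] at h1
    linarith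
  · intro h
    have h1 := Real.sqrt_le_sqrt h
    rw [hr] at h1
    linarith

theorem octant_main (q : ℝ) (hq : 0 < q) :
    (∀ N a : ℕ, a ≤ N →
      (1 + √q) * ∑ i ∈ range (N + 1), triTwoPoint q N (a, 0) (i, i)
          + (q - 1) * ∑ i ∈ range a, triTwoPoint q N (a, 0) (i, 0)
        = 1 + √q + ∑ j ∈ Ioc a N, triTwoPoint q N (a, 0) (j, 0) ∧
      (1 + √q) * ∑ j ∈ range (N + 1), triTwoPoint q N (a, 0) (N, j)
          + (q + √q - 1) * ∑ j ∈ Ioc a N, triTwoPoint q N (a, 0) (j, 0)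
        = (1 + √q) * (1 + ∑ i ∈ range a, triTwoPoint q N (a, 0) (i, 0))) ∧
    (∀ N : ℕ, ((3 - √5) / 2 < q →
        ∑ j ∈ Ioc 0 N, triTwoPoint q N (0, 0) (j, 0) ≤ (1 + √q) / (q + √q - 1)) ∧
      (q ≤ (3 - √5) / 2 → 1 ≤ ∑ j ∈ range (N + 1), triTwoPoint q N (0, 0) (N, j))) ∧
    (1 ≤ q → ∃ g : ℤ × ℤ → ℤ × ℤ → ℝ,
      (∀ x y, Tendsto (fun N => triTwoPoint q N x y) atTop (𝓝 (g x y))) ∧
      ∀ a : ℕ,
        HasSum (fun k : ℕ => g (a, 0) ((a + 1 + k : ℕ), 0))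
          ((1 + √q) * (1 + ∑ i ∈ range a, g (a, 0) (i, 0)) / (q + √q - 1)) ∧
        HasSum (fun i : ℕ => g (a, 0) (i, i))
          (√q * (1 + √q + (2 - q) * ∑ i ∈ range a, g (a, 0) (i, 0)) / (q + √q - 1))) := by
  have hs : 0 < √q := Real.sqrt_pos.2 hq
  have h1 : ∀ N a : ℕ, a ≤ N →
      (1 + √q) * ∑ i ∈ range (N + 1), triTwoPoint q N (a, 0) (i, i)
          + (q - 1) * ∑ i ∈ range a, triTwoPoint q N (a, 0) (i, 0)
        = 1 + √q + ∑ j ∈ Ioc a N, triTwoPoint q N (a, 0) (j, 0) ∧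
      (1 + √q) * ∑ j ∈ range (N + 1), triTwoPoint q N (a, 0) (N, j)
          + (q + √q - 1) * ∑ j ∈ Ioc a N, triTwoPoint q N (a, 0) (j, 0)
        = (1 + √q) * (1 + ∑ i ∈ range a, triTwoPoint q N (a, 0) (i, 0)) := by
    intro N a ha
    have e1 := tri1 hq ha
    have e2 := tri2 hq ha
    unfold Ds Bm Bp at e1
    unfold Es Bm Bp at e2
    simp only [triTwoPoint_eq]
    rw [sum_Ioc_nat (fun j => g q N N ((a : ℤ), 0) (j, 0))]
    exact ⟨e1, e2⟩
  refine ⟨h1, ?_, ?_⟩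
  · intro N
    have h2 := (h1 N 0 (Nat.zero_le _)).2
    simp only [range_zero, sum_empty, Nat.cast_zero, add_zero, mul_one] at h2
    have h3 : 0 ≤ ∑ j ∈ range (N + 1), triTwoPoint q N (0, 0) (N, j) := by
      refine sum_nonneg fun _ _ => ?_
      rw [triTwoPoint_eq]
      exact g_nonneg hq _ _ _ _
    have h4 : 0 ≤ ∑ j ∈ Ioc 0 N, triTwoPoint q N (0, 0) (j, 0) := by
      refine sum_nonneg fun _ _ => ?_
      rw [triTwoPoint_eq]
      exact g_nonneg hq _ _ _ _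
    constructor
    · intro h
      have h5 := (coef_sign q).1 h
      rw [le_div_iff₀ h5]
      have h6 : 0 ≤ (1 + √q) * ∑ j ∈ range (N + 1), triTwoPoint q N (0, 0) (N, j) := by positivity
      linarith
    · intro h
      have h5 := (coef_sign q).2 h
      have h6 : (q + √q - 1) * ∑ j ∈ Ioc 0 N, triTwoPoint q N (0, 0) (j, 0) ≤ 0 :=
        mul_nonpos_of_nonpos_of_nonneg h5 h4
      have h7 : (1 + √q) * 1 ≤ (1 + √q) * ∑ j ∈ range (N + 1), triTwoPoint q N (0, 0) (N, j) := by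
        linarith
      exact le_of_mul_le_mul_left h7 (by linarith)
  · intro hq1
    have hc := coef_pos hq1
    refine ⟨GO q, ?_, ?_⟩
    · intro x y
      simp only [triTwoPoint_eq]
      exact tendsto_g hq1 x y
    · intro a
      constructor
      · have h2 := (lim_B hq1 a).1.hasSum
        rw [show ∑' k, tB q a k = (1 + √q) * (1 + C q a) / (q + √q - 1) by
          rw [eq_div_iff hc.ne', mul_comm]; exact sum_B hq1 a] at h2
        exact h2
      · have h2 := (sum_D hq1 a).1.hasSum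
        rw [show ∑' i, tD q a i = √q * (1 + √q + (2 - q) * C q a) / (q + √q - 1) by
          rw [eq_div_iff hc.ne', mul_comm]; exact (sum_D hq1 a).2] at h2
        exact h2

end Pool.Agent.H95.Octant
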